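import Mathlib
import Pool.Agent.X90.DK.Cnt5M
import Pool.Agent.X90.DD.Small

/-!
# MP_e54452_nt: the period conjecture and the relations with one large argument

Let `G` be a `ℚ`-algebra `H` without zero divisors with elements `mot(k)` for the admissible indices `k`, `mot() = 1`,
that have the stuffle product, and with a ring homomorphism `per : H → ℂ` that maps `mot(k)` to `ζ(k)`; for example the
motivic periods with the motivic multiple zeta values. Let `A_m` be the number of admissible indices of weight at most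
`m` (`A_0 = 1`, `A_m = 2 ^ (m - 1)`). Fix `W` and consider the indices of weight at most `s + W` with an entry at least
`s` (`s` large). For almost all `s` means: for all but a bounded number of the `s ∈ [N, κ N]`, for all large `N`.

Theorem.
(1) For all `W` and almost all `s` the relations in `H` with integer coefficients of absolute value at most `C ^ s`
between the `mot(k)` for these `k` span a space of dimension `∑_{j ≤ W} 2 ^ j (A_{W - j} - h_{W - j})`, where `h_m` is the
dimension of the span of the `mot(k)` of weight at most `m` (for the motivic multiple zeta values `h_m` is known,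
`h_m = d_0 + ⋯ + d_m`). The relations between the numbers `ζ(k)` span a space that contains it, of dimension
`∑_{j ≤ W} 2 ^ j (A_{W - j} - z_{W - j})`, where `z_m = dim(Z_0 + ⋯ + Z_m)`.
(2) `per` is injective on the span of the `mot(k)` of weight at most `W` if and only if for almost all `s` each relation
of height at most `C ^ s` between the numbers `ζ(k)` of weight at most `s + W` with an argument at least `s` is a
consequence of relations of height at most `C ^ s` in `H`.
(3) `per` is injective on the subalgebra generated by the `mot(k)` if and only if this holds for all `W`.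
(4) For `W = 3` this holds, if `mot(2, 1) = mot(3)`.

Proof (`Pool/Agent/X90/DK`): the elimination of `Pool/Agent/X90/DD/Lin` works in a domain with a map `per`: it uses
lower bounds only for sums `∑ c ζ(k)` with integers `c`, and these are nonzero images of elements of `H`. So for almost
all `s` a relation of bounded height in `H` splits into relations `∑ c_p mot(p) = 0`, one for each `(b, r)`; this gives
(1), also for `H = ℝ`, and (2) follows with `z_m ≤ h_m`.
-/

set_option autoImplicit false

namespace Pool.Agent.Results.MP_e54452_nt.MotivicCount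

/-- `trunc [s_1, ..., s_r] m` is the sum of `∏ n_i ^ (-s_i)` over `m > n_1 > ... > n_r ≥ 1` -/
noncomputable def trunc : List ℕ → ℕ → ℝ
  | [], _ => 1
  | s :: l, m => ∑ j ∈ Finset.Ico 1 m, trunc l j / (j : ℝ) ^ s

/-- the multiple zeta value `ζ(s_1, ..., s_r)`, the sum of `∏ n_i ^ (-s_i)` over
`n_1 > ... > n_r ≥ 1`; `ζ() = 1` -/
noncomputable def mzv : List ℕ → ℝ
  | [] => 1
  | s :: l => ∑' m : ℕ, trunc l (m + 1) / ((m + 1 : ℕ) : ℝ) ^ s

/-- admissible indices: the empty index and `(s_1, ..., s_r)` with `s_1 ≥ 2` and all `s_i ≥ 1` -/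
def Admissible : List ℕ → Prop
  | [] => True
  | s :: l => 2 ≤ s ∧ ∀ t ∈ l, 1 ≤ t

/-- the terms of the stuffle product -/
def stuffles : List ℕ → List ℕ → List (List ℕ)
  | [], v => [v]
  | x :: u, [] => [x :: u]
  | x :: u, y :: v =>
    (stuffles u (y :: v)).map (x :: ·) ++ (stuffles (x :: u) v).map (y :: ·) ++
      (stuffles u v).map ((x + y) :: ·)
termination_by k l => k.length + l.length

/-- a `ℚ`-algebra without zero divisors, elements for the indices with the stuffle product, and a
period map; the motivic multiple zeta values are the main example -/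
structure MotivicValues where
  /-- the algebra -/
  H : Type
  [ring : CommRing H]
  [dom : IsDomain H]
  [alg : Algebra ℚ H]
  /-- the elements -/
  mot : List ℕ → H
  mot_nil : mot [] = 1
  stuffle : ∀ k l : List ℕ, Admissible k → Admissible l →
    mot k * mot l = ((stuffles k l).map mot).sum
  /-- the period map -/
  per : H →+* ℂ
  per_mot : ∀ k : List ℕ, Admissible k → per (mot k) = (mzv k : ℂ)

attribute [instance] MotivicValues.ring MotivicValues.dom MotivicValues.alg

/-- the `ℚ`-span of the elements for the admissible indices of weight at most `m` -/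
def upTo {A : Type} [CommRing A] [Algebra ℚ A] (Z : List ℕ → A) (m : ℕ) : Submodule ℚ A :=
  Submodule.span ℚ (Z '' {p | Admissible p ∧ p.sum ≤ m})

/-- the number of admissible indices of weight `n` -/
def numIndices : ℕ → ℕ
  | 0 => 1
  | 1 => 0
  | n + 2 => 2 ^ n

/-- the number of admissible indices of weight at most `m` -/
def numUpTo (m : ℕ) : ℕ := ∑ n ∈ Finset.range (m + 1), numIndices n

/-- the `ℚ`-space spanned by the relations `∑ c_w Z(w) = 0` with integers `c_w` of absolute value at
most `B` between the elements for the indices of weight at most `s + W` with an entry at least `s` -/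
noncomputable def relationSpace {A : Type} [CommRing A] [Algebra ℚ A] (Z : List ℕ → A)
    (W s : ℕ) (B : ℝ) : Submodule ℚ (List ℕ →₀ ℚ) :=
  Submodule.span ℚ {c | (∀ w ∈ c.support, Admissible w ∧ w.sum ≤ s + W ∧ ∃ t ∈ w, s ≤ t) ∧
    (∀ w, ∃ z : ℤ, c w = z ∧ |(z : ℝ)| ≤ B) ∧ Finsupp.linearCombination ℚ Z c = 0}

/-- for all `κ` there is `K` such that for all `C > 1` and all sufficiently large `N`, `P C s` holds
for all but at most `K` of the `s ∈ [N, κ N]` -/
def AlmostAll (P : ℝ → ℕ → Prop) : Prop :=
  ∀ κ : ℕ, ∃ K : ℕ, ∀ C : ℝ, 1 < C → ∃ N0 : ℕ, ∀ N : ℕ, N0 ≤ N →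
    {s : ℕ | (N ≤ s ∧ s ≤ κ * N) ∧ ¬ P C s}.ncard ≤ K

open Finset
open Pool.Agent.X90.DB (Ad)
open Pool.Agent.X90.DH (US)
open Pool.Agent.X90.DK (UM)

theorem trunc_eq : ∀ l m, trunc l m = Pool.Agent.Y760.ZG.hr l m := by
  intro l
  induction l with
  | nil => intro m; rw [trunc, Pool.Agent.Y760.ZG.hr]
  | cons s l ih =>
    intro m
    rw [trunc, Pool.Agent.Y760.ZG.hr]
    exact Finset.sum_congr rfl fun j _ => by rw [ih]

theorem mzv_eq : ∀ l, mzv l = Pool.Agent.Y760.ZG.mz l := by
  intro l
  cases l with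
  | nil => rw [mzv, Pool.Agent.Y760.ZG.mz]
  | cons s l =>
    rw [mzv, Pool.Agent.Y760.ZG.mz]
    exact tsum_congr fun k => by rw [trunc_eq]

theorem mzv_fun : mzv = Pool.Agent.Y760.ZG.mz := funext mzv_eq

theorem stuffles_eq : ∀ u v, stuffles u v = Pool.Agent.Y760.ZF.sti u v := by
  intro u v
  induction u, v using Pool.Agent.Y760.ZF.sti.induct with
  | case1 v => rw [stuffles, Pool.Agent.Y760.ZF.sti]
  | case2 x u => rw [stuffles, Pool.Agent.Y760.ZF.sti]
  | case3 x u y v ih1 ih2 ih3 => rw [stuffles, Pool.Agent.Y760.ZF.sti, ih1, ih2, ih3]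

theorem adm_iff : ∀ u, Admissible u ↔ (u = [] ∨ Ad u) := by
  intro u
  cases u with
  | nil => exact ⟨fun _ => Or.inl rfl, fun _ => trivial⟩
  | cons a l => exact ⟨fun h => Or.inr h, fun h => h.resolve_left (List.cons_ne_nil _ _)⟩

theorem num_eq : ∀ n, numIndices n = Pool.Agent.X90.DE.na n
  | 0 => rfl
  | 1 => rfl
  | _ + 2 => rfl

theorem num5_eq (m : ℕ) : numUpTo m = Pool.Agent.X90.DH.nA m := by
  rw [numUpTo, Pool.Agent.X90.DH.nA]
  exact sum_congr rfl fun n _ => num_eq n

/-- the same data in the library -/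
@[reducible] def toMot (G : MotivicValues) : Pool.Agent.X90.DK.Mot where
  H := G.H
  Z := G.mot
  nil := G.mot_nil
  mul u v hu hv := by
    rw [G.stuffle u v ((adm_iff u).2 (Or.inr hu)) ((adm_iff v).2 (Or.inr hv)), stuffles_eq]
  per := G.per
  per_Z w hw := by rw [G.per_mot w ((adm_iff w).2 (Or.inr hw)), mzv_eq]

/-- the multiple zeta values themselves -/
@[reducible] noncomputable def realMot : Pool.Agent.X90.DK.Mot where
  H := ℝ
  Z := mzv
  nil := by rw [mzv]
  mul u v hu hv := by
    rw [mzv_fun]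
    exact Pool.Agent.X90.DC.mz_stuffle u v hu hv
  per := Complex.ofRealHom
  per_Z w _ := by
    rw [← mzv_eq]
    rfl

theorem upTo_mot (G : MotivicValues) (m : ℕ) : upTo G.mot m = UM (toMot G) m := by
  rw [upTo, UM]
  simp only [adm_iff]

theorem upTo_real (m : ℕ) : upTo mzv m = UM realMot m := by
  rw [upTo, UM]
  simp only [adm_iff]

theorem fin_mot (G : MotivicValues) (m : ℕ) :
    Module.finrank ℚ (upTo G.mot m) = Module.finrank ℚ (UM (toMot G) m) := by
  have h := upTo_mot G m
  exact congrArg (fun S : Submodule ℚ G.H => Module.finrank ℚ S) h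

theorem fin_real (m : ℕ) :
    Module.finrank ℚ (upTo mzv m) = Module.finrank ℚ (UM realMot m) := by
  have h := upTo_real m
  exact congrArg (fun S : Submodule ℚ ℝ => Module.finrank ℚ S) h

theorem rel_mot (G : MotivicValues) (W s : ℕ) (B : ℝ) :
    relationSpace G.mot W s B = Pool.Agent.X90.DK.rel5M (toMot G) W s B := by
  rw [relationSpace, Pool.Agent.X90.DK.rel5M]
  simp only [adm_iff, Pool.Agent.X90.DH.Fam5]

theorem rel_real (W s : ℕ) (B : ℝ) :
    relationSpace mzv W s B = Pool.Agent.X90.DK.rel5M realMot W s B := by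
  rw [relationSpace, Pool.Agent.X90.DK.rel5M]
  simp only [adm_iff, Pool.Agent.X90.DH.Fam5]

theorem per_lc (G : MotivicValues) (c : List ℕ →₀ ℚ) (hc : ∀ w ∈ c.support, Admissible w) :
    G.per (Finsupp.linearCombination ℚ G.mot c) =
      ((Finsupp.linearCombination ℚ mzv c : ℝ) : ℂ) := by
  rw [Finsupp.linearCombination_apply, Finsupp.linearCombination_apply, Finsupp.sum, Finsupp.sum,
    map_sum, Complex.ofReal_sum]
  refine sum_congr rfl fun w hw => ?_
  rw [Algebra.smul_def, map_mul, G.per_mot w (hc w hw), Rat.smul_def, Complex.ofReal_mul]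
  congr 1
  rw [← RingHom.comp_apply, eq_ratCast]
  rfl

theorem rel_le (G : MotivicValues) (W s : ℕ) (B : ℝ) :
    relationSpace G.mot W s B ≤ relationSpace mzv W s B := by
  refine Submodule.span_mono ?_
  rintro c ⟨h1, h2, h3⟩
  refine ⟨h1, h2, ?_⟩
  have h4 := per_lc G c fun w hw => (h1 w hw).1
  rw [h3, map_zero] at h4
  exact_mod_cast h4.symm

theorem almost_of {P : ℝ → ℕ → Prop} (h : ∀ κ : ℕ, ∃ K : ℕ, ∀ C : ℝ, 1 < C → ∃ N0 : ℕ, ∀ N : ℕ,
    N0 ≤ N → ∀ B : Finset ℕ, (∀ s ∈ B, (N ≤ s ∧ s ≤ κ * N) ∧ ¬ P C s) → B.card ≤ K) :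
    AlmostAll P := by
  intro κ
  obtain ⟨K, hK⟩ := h κ
  refine ⟨K, fun C hC => ?_⟩
  obtain ⟨N0, hN0⟩ := hK C hC
  refine ⟨N0, fun N hN => ?_⟩
  have hfin : {s : ℕ | (N ≤ s ∧ s ≤ κ * N) ∧ ¬ P C s}.Finite := by
    refine (Finset.Icc N (κ * N)).finite_toSet.subset ?_
    rintro s ⟨hs, -⟩
    exact Finset.mem_coe.2 (Finset.mem_Icc.2 hs)
  rw [Set.ncard_eq_toFinset_card _ hfin]
  refine hN0 N hN hfin.toFinset fun k hk => ?_
  rw [Set.Finite.mem_toFinset] at hk
  exact hk

theorem AlmostAll.mono {P Q : ℝ → ℕ → Prop} (h : AlmostAll P) (hPQ : ∀ C s, P C s → Q C s) :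
    AlmostAll Q := by
  intro κ
  obtain ⟨K, hK⟩ := h κ
  refine ⟨K, fun C hC => ?_⟩
  obtain ⟨N0, hN0⟩ := hK C hC
  refine ⟨N0, fun N hN => (Set.ncard_le_ncard ?_ ?_).trans (hN0 N hN)⟩
  · rintro s ⟨hs, hs'⟩
    exact ⟨hs, fun hP => hs' (hPQ C s hP)⟩
  · refine (Finset.Icc N (κ * N)).finite_toSet.subset ?_
    rintro s ⟨hs, -⟩
    exact Finset.mem_coe.2 (Finset.mem_Icc.2 hs)

theorem AlmostAll.and {P Q : ℝ → ℕ → Prop} (h : AlmostAll P) (h' : AlmostAll Q) :
    AlmostAll fun C s => P C s ∧ Q C s := by
  intro κ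
  obtain ⟨K, hK⟩ := h κ
  obtain ⟨K', hK'⟩ := h' κ
  refine ⟨K + K', fun C hC => ?_⟩
  obtain ⟨N0, hN0⟩ := hK C hC
  obtain ⟨N0', hN0'⟩ := hK' C hC
  refine ⟨N0 + N0', fun N hN => ?_⟩
  have hfin : ∀ Q : ℕ → Prop, {s : ℕ | (N ≤ s ∧ s ≤ κ * N) ∧ Q s}.Finite := by
    intro Q
    refine (Finset.Icc N (κ * N)).finite_toSet.subset ?_
    rintro s ⟨hs, -⟩
    exact Finset.mem_coe.2 (Finset.mem_Icc.2 hs)
  have h3 : {s : ℕ | (N ≤ s ∧ s ≤ κ * N) ∧ ¬ (P C s ∧ Q C s)} ⊆
      {s : ℕ | (N ≤ s ∧ s ≤ κ * N) ∧ ¬ P C s} ∪ {s : ℕ | (N ≤ s ∧ s ≤ κ * N) ∧ ¬ Q C s} := by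
    rintro s ⟨hs, hs'⟩
    by_cases h : P C s
    · exact Or.inr ⟨hs, fun hQ => hs' ⟨h, hQ⟩⟩
    · exact Or.inl ⟨hs, h⟩
  refine (Set.ncard_le_ncard h3 ((hfin _).union (hfin _))).trans
    ((Set.ncard_union_le _ _).trans ?_)
  have h1 := hN0 N (by omega)
  have h2 := hN0' N (by omega)
  omega

/-- almost all is at least one -/
theorem AlmostAll.exists {P : ℝ → ℕ → Prop} (h : AlmostAll P) : ∃ s, P 2 s := by
  obtain ⟨K, hK⟩ := h 2
  obtain ⟨N0, hN0⟩ := hK 2 one_lt_two
  by_contra hcon
  push Not at hcon
  have h1 := hN0 (N0 + K) (by omega)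
  have h2 : {s : ℕ | (N0 + K ≤ s ∧ s ≤ 2 * (N0 + K)) ∧ ¬ P 2 s} =
      ((Finset.Icc (N0 + K) (2 * (N0 + K)) : Finset ℕ) : Set ℕ) := by
    ext s
    rw [Finset.mem_coe, Finset.mem_Icc]
    exact ⟨fun h => h.1, fun h => ⟨h, hcon s⟩⟩
  rw [h2, Set.ncard_coe_finset, Nat.card_Icc] at h1
  omega

/-- the dimensions for almost all `s` -/
theorem dims (G : MotivicValues) (W : ℕ) : AlmostAll fun C s =>
    Module.finrank ℚ (relationSpace G.mot W s (C ^ s)) +
      ∑ j ∈ range (W + 1), 2 ^ j * Module.finrank ℚ (upTo G.mot (W - j)) =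
        ∑ j ∈ range (W + 1), 2 ^ j * numUpTo (W - j) := by
  refine almost_of fun κ => ?_
  obtain ⟨K, hK⟩ := Pool.Agent.X90.DK.main5M (toMot G) W κ
  refine ⟨K, fun C hC => ?_⟩
  obtain ⟨N0, hN0⟩ := hK C hC
  refine ⟨N0, fun N hN B hB => hN0 N hN B fun s hs => ⟨(hB s hs).1, fun h => (hB s hs).2 ?_⟩⟩
  rw [rel_mot]
  simp only [num5_eq, fin_mot]
  exact h

/-- the dimensions for almost all `s`, for the numbers -/
theorem dims_real (W : ℕ) : AlmostAll fun C s =>
    Module.finrank ℚ (relationSpace mzv W s (C ^ s)) +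
      ∑ j ∈ range (W + 1), 2 ^ j * Module.finrank ℚ (upTo mzv (W - j)) =
        ∑ j ∈ range (W + 1), 2 ^ j * numUpTo (W - j) := by
  refine almost_of fun κ => ?_
  obtain ⟨K, hK⟩ := Pool.Agent.X90.DK.main5M realMot W κ
  refine ⟨K, fun C hC => ?_⟩
  obtain ⟨N0, hN0⟩ := hK C hC
  refine ⟨N0, fun N hN B hB => hN0 N hN B fun s hs => ⟨(hB s hs).1, fun h => (hB s hs).2 ?_⟩⟩
  rw [rel_real]
  simp only [num5_eq, fin_real]
  exact h

/-- the relations span a finite-dimensional space -/
theorem rel_finite (W s : ℕ) (B : ℝ) : Module.Finite ℚ (relationSpace mzv W s B) := by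
  classical
  set S : Submodule ℚ (List ℕ →₀ ℚ) := Submodule.span ℚ ((fun w => Finsupp.single w (1 : ℚ)) ''
    ((Pool.Agent.X90.DH.al (s + W) : Finset (List ℕ)) : Set (List ℕ))) with hS
  have h1 : Module.Finite ℚ S := by
    rw [hS]
    exact Module.Finite.span_of_finite ℚ (Set.Finite.image _ (Finset.finite_toSet _))
  have h2 : relationSpace mzv W s B ≤ S := by
    rw [relationSpace, Submodule.span_le]
    rintro c ⟨hc, -, -⟩
    rw [SetLike.mem_coe, ← Finsupp.sum_single c, Finsupp.sum]
    refine Submodule.sum_mem _ fun w hw => ?_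
    have h3 : Finsupp.single w (c w) = c w • Finsupp.single w (1 : ℚ) := by
      rw [Finsupp.smul_single, smul_eq_mul, mul_one]
    rw [h3]
    refine Submodule.smul_mem _ _ (Submodule.subset_span ⟨w, ?_, rfl⟩)
    rw [Finset.mem_coe, Pool.Agent.X90.DH.mem_al]
    obtain ⟨g1, g2, -⟩ := hc w hw
    exact ⟨(adm_iff w).1 g1, g2⟩
  exact Submodule.finiteDimensional_of_le h2

/-- the period map on the spans -/
theorem per_dim (G : MotivicValues) (m : ℕ) :
    Module.finrank ℚ (upTo mzv m) ≤ Module.finrank ℚ (upTo G.mot m) ∧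
    (Module.finrank ℚ (upTo mzv m) = Module.finrank ℚ (upTo G.mot m) ↔
      ∀ x ∈ upTo G.mot m, G.per x = 0 → x = 0) := by
  classical
  have hf0 := Pool.Agent.X90.DK.UM_finite (toMot G) m
  have hfin : Module.Finite ℚ (upTo G.mot m) := by
    rw [upTo_mot]
    exact hf0
  let P : G.H →ₗ[ℚ] ℂ := G.per.toRatAlgHom.toLinearMap
  let R : ℝ →ₗ[ℚ] ℂ := Complex.ofRealHom.toRatAlgHom.toLinearMap
  have hR : Function.Injective R := Complex.ofReal_injective
  have h1 : (upTo G.mot m).map P = (upTo mzv m).map R := by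
    rw [upTo, upTo, Submodule.map_span, Submodule.map_span]
    congr 1
    rw [Set.image_image, Set.image_image]
    refine Set.image_congr fun p hp => ?_
    exact G.per_mot p hp.1
  have h2 : Module.finrank ℚ (upTo mzv m) = Module.finrank ℚ ((upTo G.mot m).map P) := by
    rw [h1]
    exact (LinearEquiv.finrank_eq (Submodule.equivMapOfInjective R hR _))
  have h3 := LinearMap.finrank_range_add_finrank_ker (P.domRestrict (upTo G.mot m))
  rw [LinearMap.range_domRestrict, ← h2] at h3
  refine ⟨by omega, ?_⟩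
  have h4 : Module.finrank ℚ (upTo mzv m) = Module.finrank ℚ (upTo G.mot m) ↔
      Module.finrank ℚ (LinearMap.ker (P.domRestrict (upTo G.mot m))) = 0 := by omega
  rw [h4, Submodule.finrank_eq_zero, LinearMap.ker_eq_bot']
  constructor
  · intro h x hx h0
    exact congrArg Subtype.val (h ⟨x, hx⟩ h0)
  · intro h x h0
    exact Subtype.ext (h x.1 x.2 h0)

theorem upTo_mono {A : Type} [CommRing A] [Algebra ℚ A] (Z : List ℕ → A) {m n : ℕ} (h : m ≤ n) :
    upTo Z m ≤ upTo Z n := by
  refine Submodule.span_mono (Set.image_mono ?_)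
  rintro p ⟨h1, h2⟩
  exact ⟨h1, h2.trans h⟩

/-- **the period conjecture in bounded weight** -/
theorem inj_iff (G : MotivicValues) (W : ℕ) : (∀ x ∈ upTo G.mot W, G.per x = 0 → x = 0) ↔
    AlmostAll fun C s => relationSpace G.mot W s (C ^ s) = relationSpace mzv W s (C ^ s) := by
  constructor
  · intro h
    have h1 : ∀ m ≤ W, Module.finrank ℚ (upTo mzv m) = Module.finrank ℚ (upTo G.mot m) :=
      fun m hm => (per_dim G m).2.2 fun x hx => h x (upTo_mono _ hm hx)
    refine ((dims G W).and (dims_real W)).mono fun C s hCs => ?_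
    obtain ⟨g1, g2⟩ := hCs
    have h2 : ∑ j ∈ range (W + 1), 2 ^ j * Module.finrank ℚ (upTo mzv (W - j)) =
        ∑ j ∈ range (W + 1), 2 ^ j * Module.finrank ℚ (upTo G.mot (W - j)) :=
      sum_congr rfl fun j _ => by rw [h1 _ (by omega)]
    have hfin := rel_finite W s (C ^ s)
    exact Submodule.eq_of_le_of_finrank_eq (rel_le G W s _) (by omega)
  · intro h
    obtain ⟨s, ⟨g1, g2⟩, g3⟩ := (((dims G W).and (dims_real W)).and h).exists
    have h2 : ∑ j ∈ range (W + 1), 2 ^ j * Module.finrank ℚ (upTo mzv (W - j)) =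
        ∑ j ∈ range (W + 1), 2 ^ j * Module.finrank ℚ (upTo G.mot (W - j)) := by
      rw [g3] at g1
      omega
    have h3 := (sum_eq_sum_iff_of_le fun j _ => Nat.mul_le_mul_left (2 ^ j)
      (per_dim G (W - j)).1).1 h2 0 (mem_range.2 (by omega))
    rw [pow_zero, one_mul, one_mul, Nat.sub_zero] at h3
    exact (per_dim G W).2.1 h3

/-- the algebra is the union of the spans -/
theorem mem_adjoin (G : MotivicValues) (x : G.H) :
    x ∈ Algebra.adjoin ℚ (G.mot '' {p | Admissible p}) ↔ ∃ W, x ∈ upTo G.mot W := by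
  constructor
  · intro hx
    have h0 : ∀ x ∈ Submodule.span ℚ (G.mot '' {p | Admissible p}), ∃ W, x ∈ upTo G.mot W := by
      intro x hx
      induction hx using Submodule.span_induction with
      | mem x h =>
        obtain ⟨p, hp, rfl⟩ := h
        exact ⟨p.sum, Submodule.subset_span ⟨p, ⟨hp, le_rfl⟩, rfl⟩⟩
      | zero => exact ⟨0, Submodule.zero_mem _⟩
      | add x y _ _ h1 h2 =>
        obtain ⟨W1, h1⟩ := h1
        obtain ⟨W2, h2⟩ := h2
        exact ⟨W1 + W2, Submodule.add_mem _ (upTo_mono _ (Nat.le_add_right _ _) h1)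
          (upTo_mono _ (Nat.le_add_left _ _) h2)⟩
      | smul a x _ h1 =>
        obtain ⟨W, h1⟩ := h1
        exact ⟨W, Submodule.smul_mem _ _ h1⟩
    apply h0
    set S := Submodule.span ℚ (G.mot '' {p | Admissible p}) with hS
    have hmul : ∀ k l, Admissible k → Admissible l → G.mot k * G.mot l ∈ S := by
      intro k l hk hl
      rw [G.stuffle k l hk hl, stuffles_eq]
      refine list_sum_mem fun y hy => ?_
      rw [List.mem_map] at hy
      obtain ⟨p, hp, rfl⟩ := hy
      refine Submodule.subset_span ⟨p, ?_, rfl⟩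
      exact (adm_iff p).2 (Pool.Agent.X90.DC.sti_ad' ((adm_iff k).1 hk) ((adm_iff l).1 hl) p hp)
    have hmul2 : ∀ x ∈ S, ∀ y ∈ S, x * y ∈ S := by
      intro x hx y hy
      induction hx using Submodule.span_induction with
      | mem x h =>
        obtain ⟨p, hp, rfl⟩ := h
        induction hy using Submodule.span_induction with
        | mem y h =>
          obtain ⟨q, hq, rfl⟩ := h
          exact hmul p q hp hq
        | zero =>
          rw [mul_zero]
          exact Submodule.zero_mem _
        | add y z _ _ h1 h2 =>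
          rw [mul_add]
          exact Submodule.add_mem _ h1 h2
        | smul a y _ h1 =>
          rw [mul_smul_comm]
          exact Submodule.smul_mem _ _ h1
      | zero =>
        rw [zero_mul]
        exact Submodule.zero_mem _
      | add x z _ _ h1 h2 =>
        rw [add_mul]
        exact Submodule.add_mem _ h1 h2
      | smul a x _ h1 =>
        rw [smul_mul_assoc]
        exact Submodule.smul_mem _ _ h1
    have h1S : (1 : G.H) ∈ S := Submodule.subset_span ⟨[], trivial, G.mot_nil⟩
    induction hx using Algebra.adjoin_induction with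
    | mem x h => exact Submodule.subset_span h
    | algebraMap r =>
      rw [Algebra.algebraMap_eq_smul_one]
      exact Submodule.smul_mem _ _ h1S
    | add x y _ _ h1 h2 => exact Submodule.add_mem _ h1 h2
    | mul x y _ _ h1 h2 => exact hmul2 x h1 y h2
  · rintro ⟨W, hx⟩
    have h1 : upTo G.mot W ≤ (Algebra.adjoin ℚ (G.mot '' {p | Admissible p})).toSubmodule := by
      rw [upTo, Submodule.span_le]
      rintro _ ⟨p, hp, rfl⟩
      exact Algebra.subset_adjoin ⟨p, hp.1, rfl⟩
    exact h1 hx

/-- **The period conjecture and the relations with one large argument.** Let `G` be a `ℚ`-algebra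
without zero divisors with elements `mot(k)` that have the stuffle product and a period map, for
example the motivic multiple zeta values. (1) For all `W` and almost all `s`: the relations of height
at most `C ^ s` between the `mot(k)` of weight at most `s + W` with an entry at least `s` span a
space of dimension `∑_{j ≤ W} 2 ^ j (A_{W - j} - dim upTo mot (W - j))`, and the space spanned by the
relations between the numbers `ζ(k)` contains it and has the dimension
`∑_{j ≤ W} 2 ^ j (A_{W - j} - dim upTo ζ (W - j))`. (2) For all `W`: the period map is injective on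
the elements of weight at most `W` if and only if the two spaces are equal for almost all `s`.
(3) The period map is injective on the algebra generated by the `mot(k)` if and only if this holds
for all `W`. (4) If `mot(2, 1) = mot(3)`, this holds for `W = 3`. -/
theorem result (G : MotivicValues) :
    (∀ W : ℕ, AlmostAll fun C s =>
      relationSpace G.mot W s (C ^ s) ≤ relationSpace mzv W s (C ^ s) ∧
      Module.finrank ℚ (relationSpace G.mot W s (C ^ s)) +
        ∑ j ∈ Finset.range (W + 1), 2 ^ j * Module.finrank ℚ (upTo G.mot (W - j)) =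
          ∑ j ∈ Finset.range (W + 1), 2 ^ j * numUpTo (W - j) ∧
      Module.finrank ℚ (relationSpace mzv W s (C ^ s)) +
        ∑ j ∈ Finset.range (W + 1), 2 ^ j * Module.finrank ℚ (upTo mzv (W - j)) =
          ∑ j ∈ Finset.range (W + 1), 2 ^ j * numUpTo (W - j)) ∧
    (∀ W : ℕ, (∀ x ∈ upTo G.mot W, G.per x = 0 → x = 0) ↔
      AlmostAll fun C s => relationSpace G.mot W s (C ^ s) = relationSpace mzv W s (C ^ s)) ∧
    ((∀ x ∈ Algebra.adjoin ℚ (G.mot '' {p | Admissible p}), G.per x = 0 → x = 0) ↔
      ∀ W : ℕ, AlmostAll fun C s =>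
        relationSpace G.mot W s (C ^ s) = relationSpace mzv W s (C ^ s)) ∧
    (G.mot [2, 1] = G.mot [3] → AlmostAll fun C s =>
      relationSpace G.mot 3 s (C ^ s) = relationSpace mzv 3 s (C ^ s)) := by
  refine ⟨fun W => ((dims G W).and (dims_real W)).mono fun C s h =>
    ⟨rel_le G W s _, h.1, h.2⟩, inj_iff G, ?_, fun h21 => ?_⟩
  · constructor
    · intro h W
      exact (inj_iff G W).1 fun x hx => h x ((mem_adjoin G x).2 ⟨W, hx⟩)
    · intro h x hx
      obtain ⟨W, hW⟩ := (mem_adjoin G x).1 hx
      exact (inj_iff G W).2 (h W) x hW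
  · refine (inj_iff G 3).1 fun x hx h0 => ?_
    -- the elements of weight at most `3`
    have h1 : upTo G.mot 3 ≤ Submodule.span ℚ {G.mot [], G.mot [2], G.mot [3]} := by
      rw [upTo, Submodule.span_le]
      rintro _ ⟨p, ⟨hp1, hp2⟩, rfl⟩
      have hp3 : p = [] ∨ p = [2] ∨ p = [3] ∨ p = [2, 1] := by
        match p, hp1, hp2 with
        | [], _, _ => exact Or.inl rfl
        | [a], hp1, hp2 =>
          have g1 : 2 ≤ a := hp1.1
          rw [List.sum_cons, List.sum_nil] at hp2
          have g2 : a = 2 ∨ a = 3 := by omega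
          rcases g2 with rfl | rfl
          · exact Or.inr (Or.inl rfl)
          · exact Or.inr (Or.inr (Or.inl rfl))
        | [a, b], hp1, hp2 =>
          have g1 : 2 ≤ a := hp1.1
          have g2 : 1 ≤ b := hp1.2 b (by simp)
          rw [List.sum_cons, List.sum_cons, List.sum_nil] at hp2
          have g3 : a = 2 := by omega
          have g4 : b = 1 := by omega
          subst g3 g4
          exact Or.inr (Or.inr (Or.inr rfl))
        | a :: b :: c :: l, hp1, hp2 =>
          have g1 : 2 ≤ a := hp1.1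
          have g2 : 1 ≤ b := hp1.2 b (by simp)
          have g3 : 1 ≤ c := hp1.2 c (by simp)
          rw [List.sum_cons, List.sum_cons, List.sum_cons] at hp2
          omega
      rcases hp3 with rfl | rfl | rfl | rfl
      · exact Submodule.subset_span (by simp)
      · exact Submodule.subset_span (by simp)
      · exact Submodule.subset_span (by simp)
      · rw [h21]
        exact Submodule.subset_span (by simp)
    have h2 := h1 hx
    rw [Submodule.mem_span_triple] at h2
    obtain ⟨a, b, c, rfl⟩ := h2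
    have h3 : ((a : ℝ) * 1 + b * mzv [2] + c * mzv [3] : ℝ) = 0 := by
      have h4 : G.per (a • G.mot [] + b • G.mot [2] + c • G.mot [3]) =
          (((a : ℝ) * 1 + b * mzv [2] + c * mzv [3] : ℝ) : ℂ) := by
        have e : ∀ (q : ℚ) (y : G.H), G.per (q • y) = (q : ℂ) * G.per y := by
          intro q y
          rw [Algebra.smul_def, map_mul, ← RingHom.comp_apply, eq_ratCast]
        rw [map_add, map_add, e, e, e, G.mot_nil, map_one,
          G.per_mot [2] ⟨le_rfl, by simp⟩, G.per_mot [3] ⟨by norm_num, by simp⟩]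
        push_cast
        ring
      rw [h4] at h0
      exact_mod_cast h0
    have h4 := Pool.Agent.X90.DD.direct_three
      (fun j => if j = 0 then (a : ℝ) * 1 else if j = 2 then b * mzv [2] else
        if j = 3 then c * mzv [3] else 0) (fun j _ => by
        have g0 : (1 : ℝ) ∈ Pool.Agent.X90.DD.WS 0 := by
          have := Pool.Agent.X90.DE.mz_mem (p := []) (n := 0) (Or.inl rfl) rfl
          rwa [Pool.Agent.Y760.ZG.mz] at this
        have g2 : mzv [2] ∈ Pool.Agent.X90.DD.WS 2 := by
          rw [mzv_eq]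
          exact Pool.Agent.X90.DE.mz_mem (Or.inr ⟨le_rfl, by simp⟩) rfl
        have g3 : mzv [3] ∈ Pool.Agent.X90.DD.WS 3 := by
          rw [mzv_eq]
          exact Pool.Agent.X90.DE.mz_mem (Or.inr ⟨by norm_num, by simp⟩) rfl
        split_ifs with q0 q2 q3
        · rw [q0, ← Rat.smul_def]
          exact Submodule.smul_mem _ _ g0
        · rw [q2, ← Rat.smul_def]
          exact Submodule.smul_mem _ _ g2
        · rw [q3, ← Rat.smul_def]
          exact Submodule.smul_mem _ _ g3
        · exact Submodule.zero_mem _) (by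
        simp only [sum_range_succ, sum_range_zero]
        norm_num
        linarith)
    have ha : a = 0 := by
      have := h4 0 (by norm_num)
      simp only [if_true] at this
      rw [mul_one] at this
      exact_mod_cast this
    have hb : b = 0 := by
      have := h4 2 (by norm_num)
      norm_num at this
      rcases this with h | h
      · exact h
      · rw [mzv_eq] at h
        exact absurd h (Pool.Agent.X90.DD.mz_pos le_rfl).ne'
    have hc : c = 0 := by
      have := h4 3 (by norm_num)
      norm_num at this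
      rcases this with h | h
      · exact h
      · rw [mzv_eq] at h
        exact absurd h (Pool.Agent.X90.DD.mz_pos (by norm_num)).ne'
    rw [ha, hb, hc]
    simp

end Pool.Agent.Results.MP_e54452_nt.MotivicCount
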