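import Pool.Agent.X27.MZ.Amp
import Pool.Agent.X27.MZ.Words

/-!
# The period conjecture for `MT(ℤ)` holds, or fails for a positive proportion

Let `V_n = Z_0 + Z_1 + ... + Z_n ⊂ ℝ` be the `ℚ`-span of all multiple zeta values of weight at most `n` and `D_n` the
number of the words in the letters `2, 3` of weight at most `n`, so `dim V_n ≤ D_n`.

Theorem. If the period map of mixed Tate motives over `ℤ` is not injective then there is `m` with
`dim V_{m+k} ≤ D_{m+k} - D_k` for all `k`, and `dim V_n ≤ (1 - 2^{-m}) D_n` for all `n ≥ m`.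
So the period conjecture holds if (and only if) `dim V_n = D_n` for infinitely many `n`, and it follows already from
`limsup dim V_n / D_n = 1`.

Here no grading by the weight is assumed for the real numbers: a failure may be a relation between multiple zeta
values of different weights. Input (structure `MotivicPeriods`): the theorem of Brown (2012), and
`P^m = H[L^m, 1 / L^m]` with `(L^m)² ∈ H`, where `per L^m = 2πi`.
-/

set_option autoImplicit false

open Filter Topology

namespace Pool.Agent.Results.MP_e54452_nt.PositiveProportion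

open Pool.Agent.X27.MZ (Words d)

/-- The multiple zeta value of an index (the first entry belongs to the largest variable). -/
noncomputable def zeta (s : List ℕ) : ℝ :=
  ∑' m : {m : Fin s.length → ℕ // StrictAnti m ∧ ∀ i, 0 < m i},
    ∏ i, ((m.1 i : ℝ) ^ (s.get i))⁻¹

/-- All entries are positive, and the first one is at least `2`. -/
def Admissible (s : List ℕ) : Prop := (∀ a ∈ s, 1 ≤ a) ∧ ∀ a ∈ s.head?, 2 ≤ a

/-- The span of the multiple zeta values of weight at most `n`. -/
noncomputable def V (n : ℕ) : Submodule ℚ ℝ :=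
  Submodule.span ℚ {x : ℝ | ∃ s : List ℕ, Admissible s ∧ s.sum ≤ n ∧ x = zeta s}

/-- The number of words of weight at most `n` in the letters `2` and `3`. -/
noncomputable def D (n : ℕ) : ℕ := ∑ j ∈ Finset.range (n + 1), Nat.card (Words j)

/-- The motivic periods of `MT(ℤ)` with the period map, and the properties found by Brown. -/
structure MotivicPeriods where
  /-- the ring of motivic periods -/
  P : Type
  [ring : CommRing P]
  [dom : IsDomain P]
  [alg : Algebra ℚ P]
  /-- the period map -/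
  per : P →ₐ[ℚ] ℂ
  /-- the motivic multiple zeta values -/
  mot : List ℕ → P
  /-- the motivic version of `2πi` -/
  L : P
  per_L : per L = 2 * Real.pi * Complex.I
  per_mot : ∀ s, Admissible s → per (mot s) = zeta s
  mul_mem : ∀ s t, Admissible s → Admissible t →
    mot s * mot t ∈ Submodule.span ℚ (mot '' {u | Admissible u ∧ u.sum = s.sum + t.sum})
  indep : LinearIndependent ℚ (fun x : (Σ k, Words k) => mot x.2.1)
  span : ∀ s, Admissible s → mot s ∈ Submodule.span ℚ (Set.range fun l : Words s.sum => mot l.1)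
  gen : ∀ p : P, ∃ n : ℕ, ∃ x ∈ Submodule.span ℚ (mot '' {u | Admissible u}),
    ∃ y ∈ Submodule.span ℚ (mot '' {u | Admissible u}), L ^ n * p = x + L * y

attribute [instance] MotivicPeriods.ring MotivicPeriods.dom MotivicPeriods.alg

theorem admissible_word {k : ℕ} (w : Words k) : Admissible w.1 := by
  constructor
  · intro a ha
    rcases w.2.1 a ha with h | h <;> omega
  · intro a ha
    rcases w.2.1 a (List.mem_of_mem_head? ha) with h | h <;> omega

theorem D_succ (n : ℕ) : D (n + 1) = D n + d (n + 1) := by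
  unfold D d
  rw [Finset.sum_range_succ]

theorem d_le_D : ∀ n : ℕ, d (n + 1) ≤ D n
  | 0 => by rw [Pool.Agent.X27.MZ.d_one]; exact Nat.zero_le _
  | 1 => by
    rw [Pool.Agent.X27.MZ.d_two, D_succ, Pool.Agent.X27.MZ.d_one]
    show 1 ≤ ∑ j ∈ Finset.range 1, d j + 0
    rw [Finset.sum_range_one, Pool.Agent.X27.MZ.d_zero]
  | n + 2 => by
    rw [Pool.Agent.X27.MZ.d_rec, D_succ, D_succ]
    have h : d n ≤ D n := by
      unfold D
      exact Finset.single_le_sum (f := fun j => d j) (fun _ _ => Nat.zero_le _)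
        (Finset.mem_range.2 (Nat.lt_succ_self n))
    omega

theorem D_add_le (m k : ℕ) : D (m + k) ≤ 2 ^ m * D k := by
  induction m with
  | zero => simp
  | succ m ih =>
    have h1 : m + 1 + k = m + k + 1 := by omega
    have h2 := d_le_D (m + k)
    rw [h1, D_succ]
    calc D (m + k) + d (m + k + 1) ≤ 2 * D (m + k) := by omega
      _ ≤ 2 * (2 ^ m * D k) := Nat.mul_le_mul_left _ ih
      _ = 2 ^ (m + 1) * D k := by ring

theorem D_pos (n : ℕ) : 0 < D n := by
  have h : d 0 ≤ D n := by
    unfold D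
    exact Finset.single_le_sum (f := fun j => d j) (fun _ _ => Nat.zero_le _)
      (Finset.mem_range.2 (Nat.succ_pos n))
  rw [Pool.Agent.X27.MZ.d_zero] at h
  exact h

namespace MotivicPeriods

variable (M : MotivicPeriods)

/-- The part of weight at most `n`. -/
def part (n : ℕ) : Submodule ℚ M.P :=
  Submodule.span ℚ (Set.range fun x : (Σ j : Fin (n + 1), Words j.1) => M.mot x.2.1)

instance (n : ℕ) : FiniteDimensional ℚ (M.part n) := FiniteDimensional.span_of_finite ℚ (Set.finite_range _)

theorem finrank_part (n : ℕ) : Module.finrank ℚ (M.part n) = D n := by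
  have : Fintype (Σ j : Fin (n + 1), Words j.1) := Fintype.ofFinite _
  have hinj : Function.Injective
      (fun x : (Σ j : Fin (n + 1), Words j.1) => (⟨x.1.1, x.2⟩ : Σ k, Words k)) := by
    rintro ⟨⟨a, ha⟩, v⟩ ⟨⟨b, hb⟩, w⟩ h
    simp only [Sigma.mk.injEq] at h
    obtain ⟨rfl, h2⟩ := h
    rw [eq_of_heq h2]
  have h1 := M.indep.comp _ hinj
  have h2 : Module.finrank ℚ (M.part n) = Fintype.card (Σ j : Fin (n + 1), Words j.1) :=
    finrank_span_eq_card h1
  rw [h2, ← Nat.card_eq_fintype_card, Nat.card_sigma, D, Finset.sum_range]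

theorem word_mem {n : ℕ} {k : ℕ} (hk : k ≤ n) (w : Words k) : M.mot w.1 ∈ M.part n :=
  Submodule.subset_span ⟨⟨⟨k, by omega⟩, w⟩, rfl⟩

theorem mem_part {n : ℕ} {s : List ℕ} (hs : Admissible s) (h : s.sum ≤ n) : M.mot s ∈ M.part n := by
  refine (Submodule.span_le.2 ?_) (M.span s hs)
  rintro _ ⟨w, rfl⟩
  exact M.word_mem h w

theorem mul_mem_part (j k : ℕ) (x y : M.P) (hx : x ∈ M.part j) (hy : y ∈ M.part k) :
    x * y ∈ M.part (j + k) := by
  have h1 : M.part j * M.part k ≤ M.part (j + k) := by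
    unfold part
    rw [Submodule.span_mul_span, Submodule.span_le]
    rintro _ ⟨_, ⟨v, rfl⟩, _, ⟨w, rfl⟩, rfl⟩
    have h2 := M.mul_mem v.2.1 w.2.1 (admissible_word v.2) (admissible_word w.2)
    rw [v.2.2.2, w.2.2.2] at h2
    refine (Submodule.span_le.2 ?_) h2
    rintro _ ⟨u, ⟨hu, hu2⟩, rfl⟩
    refine M.mem_part hu ?_
    have h3 := v.1.2
    have h4 := w.1.2
    omega
  exact h1 (Submodule.mul_mem_mul hx hy)

/-- The inclusion of the real numbers. -/
noncomputable def inc : ℝ →ₗ[ℚ] ℂ := Complex.ofRealAm.toLinearMap.restrictScalars ℚ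

theorem inc_inj : Function.Injective inc := Complex.ofReal_injective

theorem map_part (n : ℕ) : (M.part n).map M.per.toLinearMap = (V n).map inc := by
  apply le_antisymm
  · unfold part
    rw [Submodule.map_span, Submodule.span_le]
    rintro _ ⟨_, ⟨w, rfl⟩, rfl⟩
    refine ⟨zeta w.2.1, Submodule.subset_span ⟨w.2.1, admissible_word w.2, ?_, rfl⟩,
      (M.per_mot _ (admissible_word w.2)).symm⟩
    have := w.2.2.2
    have h4 := w.1.2
    omega
  · unfold V
    rw [Submodule.map_span, Submodule.span_le]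
    rintro _ ⟨_, ⟨s, hs, h, rfl⟩, rfl⟩
    exact ⟨M.mot s, M.mem_part hs h, M.per_mot s hs⟩

theorem finrank_map (n : ℕ) :
    Module.finrank ℚ ((M.part n).map M.per.toLinearMap) = Module.finrank ℚ (V n) := by
  rw [M.map_part]
  exact (Submodule.equivMapOfInjective inc inc_inj (V n)).finrank_eq.symm

/-- The span of all motivic multiple zeta values. -/
def all : Submodule ℚ M.P := Submodule.span ℚ (M.mot '' {u | Admissible u})

theorem all_le {x : M.P} (hx : x ∈ M.all) : ∃ n, x ∈ M.part n := by
  have hmono : ∀ {a b : ℕ}, a ≤ b → M.part a ≤ M.part b := by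
    intro a b hab
    unfold part
    rw [Submodule.span_le]
    rintro _ ⟨w, rfl⟩
    exact M.word_mem (by have := w.1.2; omega) w.2
  induction hx using Submodule.span_induction with
  | mem x h =>
    obtain ⟨s, hs, rfl⟩ := h
    exact ⟨s.sum, M.mem_part hs le_rfl⟩
  | zero => exact ⟨0, Submodule.zero_mem _⟩
  | add x y _ _ hx hy =>
    obtain ⟨a, ha⟩ := hx
    obtain ⟨b, hb⟩ := hy
    exact ⟨max a b, Submodule.add_mem _ (hmono (le_max_left _ _) ha) (hmono (le_max_right _ _) hb)⟩
  | smul c x _ hx =>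
    obtain ⟨a, ha⟩ := hx
    exact ⟨a, Submodule.smul_mem _ c ha⟩

theorem part_le (n : ℕ) : M.part n ≤ M.all := by
  unfold part all
  rw [Submodule.span_le]
  rintro _ ⟨w, rfl⟩
  exact Submodule.subset_span ⟨w.2.1, admissible_word w.2, rfl⟩

theorem per_real {x : M.P} (hx : x ∈ M.all) : ∃ r : ℝ, M.per x = r := by
  obtain ⟨n, hn⟩ := M.all_le hx
  have h : M.per.toLinearMap x ∈ (V n).map inc := by
    rw [← M.map_part]
    exact Submodule.mem_map_of_mem hn
  obtain ⟨r, -, hr⟩ := h
  exact ⟨r, hr.symm⟩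

/-- The period conjecture only concerns the multiple zeta values. -/
theorem inj_iff : Function.Injective M.per ↔ ∀ x ∈ M.all, M.per x = 0 → x = 0 := by
  constructor
  · intro h x _ hx
    exact h (by rw [hx, map_zero])
  · intro h
    rw [injective_iff_map_eq_zero]
    intro p hp
    obtain ⟨n, x, hx, y, hy, hxy⟩ := M.gen p
    have h1 : M.per x + 2 * Real.pi * Complex.I * M.per y = 0 := by
      have := congrArg M.per hxy
      rw [map_mul, hp, mul_zero, map_add, map_mul, M.per_L] at this
      exact this.symm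
    obtain ⟨a, ha⟩ := M.per_real hx
    obtain ⟨b, hb⟩ := M.per_real hy
    rw [ha, hb] at h1
    have h2 : a = 0 := by simpa using congrArg Complex.re h1
    have h3' : b = 0 := by simpa [Real.pi_ne_zero] using congrArg Complex.im h1
    have hx0 : x = 0 := h x hx (by rw [ha, h2]; simp)
    have hy0 : y = 0 := h y hy (by rw [hb, h3']; simp)
    rw [hx0, hy0, mul_zero, add_zero] at hxy
    have hL : M.L ≠ 0 := by
      intro h0
      have := M.per_L
      rw [h0, map_zero] at this
      exact Complex.two_pi_I_ne_zero this.symm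
    exact (mul_eq_zero.1 hxy).resolve_left (pow_ne_zero _ hL)

theorem amp (h : ¬ Function.Injective M.per) :
    ∃ m, ∀ k, Module.finrank ℚ (V (m + k)) + D k ≤ D (m + k) := by
  rw [M.inj_iff] at h
  push Not at h
  obtain ⟨ξ, hξ, h1, h2⟩ := h
  obtain ⟨m, hm⟩ := M.all_le hξ
  refine ⟨m, fun k => ?_⟩
  have h3 := Pool.Agent.X27.MZ.amplify M.per M.part M.mul_mem_part hm h2 h1 k
  rwa [M.finrank_map, M.finrank_part, M.finrank_part] at h3

end MotivicPeriods

/-- **The period conjecture for `MT(ℤ)` holds, or fails for a positive proportion.** -/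
theorem result (M : MotivicPeriods) :
    (∀ n, Module.finrank ℚ (V n) ≤ D n) ∧
    (¬ Function.Injective M.per → ∃ m,
      (∀ k, Module.finrank ℚ (V (m + k)) + D k ≤ D (m + k)) ∧
      ∀ n, m ≤ n → (Module.finrank ℚ (V n) : ℝ) ≤ (1 - 1 / 2 ^ m) * D n) ∧
    [Function.Injective M.per,
      ∀ n, Module.finrank ℚ (V n) = D n,
      ∀ n₀, ∃ n, n₀ ≤ n ∧ Module.finrank ℚ (V n) = D n,
      ∀ ε : ℝ, 0 < ε → ∀ n₀, ∃ n, n₀ ≤ n ∧ (1 - ε) * D n ≤ (Module.finrank ℚ (V n) : ℝ)].TFAE := by
  have hle : ∀ n, Module.finrank ℚ (V n) ≤ D n := by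
    intro n
    rw [← M.finrank_map, ← M.finrank_part]
    exact Pool.Agent.X27.MZ.finrank_map_le _ _
  have hfail : ¬ Function.Injective M.per → ∃ m,
      (∀ k, Module.finrank ℚ (V (m + k)) + D k ≤ D (m + k)) ∧
      ∀ n, m ≤ n → (Module.finrank ℚ (V n) : ℝ) ≤ (1 - 1 / 2 ^ m) * D n := by
    intro h
    obtain ⟨m, hm⟩ := M.amp h
    refine ⟨m, hm, fun n hn => ?_⟩
    obtain ⟨k, rfl⟩ : ∃ k, n = m + k := ⟨n - m, by omega⟩
    have h4 : (Module.finrank ℚ (V (m + k)) : ℝ) + D k ≤ D (m + k) := by exact_mod_cast hm k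
    have h5 : (D (m + k) : ℝ) ≤ 2 ^ m * D k := by exact_mod_cast D_add_le m k
    have h6 : 1 / 2 ^ m * (D (m + k) : ℝ) ≤ D k := by
      rw [one_div, inv_mul_le_iff₀ (by positivity)]
      exact h5
    linarith
  refine ⟨hle, hfail, ?_⟩
  tfae_have 1 → 2 := by
    intro h n
    rw [← M.finrank_map, ← M.finrank_part, Pool.Agent.X27.MZ.finrank_map_eq_iff]
    intro x _ hx
    exact h (by rw [hx, map_zero])
  tfae_have 2 → 3 := fun h n => ⟨n, le_rfl, h n⟩
  tfae_have 3 → 4 := by
    intro h ε hε n₀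
    obtain ⟨n, hn, h1⟩ := h n₀
    refine ⟨n, hn, ?_⟩
    rw [h1]
    have : (0 : ℝ) ≤ D n := Nat.cast_nonneg _
    nlinarith
  tfae_have 4 → 1 := by
    intro h
    by_contra hne
    obtain ⟨m, -, hm⟩ := hfail hne
    obtain ⟨n, hn, h1⟩ := h (1 / 2 ^ (m + 1)) (by positivity) m
    have h2 := hm n hn
    have h3 : (0 : ℝ) < D n := by exact_mod_cast D_pos n
    have h4 : (1 : ℝ) / 2 ^ (m + 1) < 1 / 2 ^ m := by
      apply one_div_lt_one_div_of_lt (by positivity)
      exact pow_lt_pow_right₀ (by norm_num) (by omega)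
    nlinarith
  tfae_finish

end Pool.Agent.Results.MP_e54452_nt.PositiveProportion
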