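import Pool.Agent.X306.MZ.Fin

/-!
# Subtorsors for mixed Tate motives over `ℤ` and the irrationality of odd zeta values

Let `M` be an object of `MT(ℤ)`. The graded Lie algebra of the unipotent part `U` of its motivic Galois group (on the de
Rham side) is generated by the images `N_s` of the elements `σ_{κ_s}`, `κ_s = 3, 5, 7, …`. The torsor
`X(M)` of motivic periods is trivial over `ℚ`; in bases which are adapted to the weights, and after the choice of a rational
point, it is the set of all matrices

  `periodMatrix d μ n = diag(μ^(d b)) exp(n)`,  `μ ≠ 0`, `n ∈ 𝔫`,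

(rows: Betti side, columns: de Rham side, `d b` is the degree of the basis vector `b`, of type `ℚ(d b)`), and the period
matrix of `M` is the point with `μ = 2πi` and `n = ell`, where

  `ell ∈ ∑ ζ(κ_s) N_s + [𝔫, 𝔫]`,

since the extension of `ℚ(0)` by `ℚ(k)`, `k ≥ 3` odd, has the period matrix `(1, ζ(k); 0, (2πi)^k)`. (The other components of
`ell` are the multiple zeta values; there is no hypothesis for them.)

The period conjecture says that the period matrix is a generic point of `X(M)`. A weaker statement (the de Rham-Betti form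
of the conjecture) is that every subtorsor `T` over `ℚ` which contains the period matrix is equal to `X(M)`, which
means that all classes in the tensor constructions of `M` which are rational on both sides are motivic.

**Theorem.** Let `T` be a subtorsor over `ℚ` which contains the period matrix.

1. There is a Lie subalgebra `𝔪` of `𝔫` such that `T` is stable under `exp(m)`, `m ∈ 𝔪`, and which contains an element of
   `N_s + [𝔫, 𝔫]` for every `s` such that `ζ(κ_s)` is irrational.
2. If all `ζ(κ_s)` are irrational then `T` contains the whole torsor `X(M)`.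

So the de Rham-Betti form of the period conjecture for `MT(ℤ)`, which involves all multiple zeta values, is a consequence
of the irrationality of the numbers `ζ(3), ζ(5), …` (and it is clear that it implies the irrationality: if `ζ(k)` is rational
then the extension of `ℚ(0)` by `ℚ(k)` splits on the de Rham-Betti side). By the theorem of Apéry, `T = X(M)` if the unipotent
part is generated by `σ_3`, and by the theorem of Ball and Rivoal the Lie algebra `𝔪` contains elements of
`σ_{κ} + [𝔫, 𝔫]` for infinitely many `κ` (in the limit over all `M`).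

## The proof

The Lie algebra `L` of the group of `T` is defined over `ℚ`. Since `2πi` is transcendental, the logarithmic derivatives of the
period matrix give a rational element `Z ∈ Δ + 𝔫` of `L`, where `Δ` is the degree operator (`exists_Z`). Hence
`V = (L ∩ 𝔫) + [𝔫, 𝔫]` is a graded subspace defined over `ℚ`. If `N_s` is not in `V` then there is a rational functional `φ` on the
component of degree `k = κ_s` which vanishes on `V`, but not at `N_s`. With `γ = φ(Z - Δ) ∈ ℚ` the number
`y = φ(ell) - (γ / k) (2πi)^k` is killed by all derivations, hence algebraic; and it is fixed by the automorphisms of `ℂ` over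
`ℚ(2πi)`: for such an automorphism `σ` the group of `T` contains a unipotent element whose logarithm is in `𝔫`, with the value
`(2πi)^(-k) (σ(φ(ell)) - φ(ell))` of `φ` (`gen_mem`; this uses the formula of Campbell and Hausdorff, `bch`). So `y` is
rational, and `φ(ell) = φ(N_s) ζ(k)` is in `ℚ + ℚ (2πi)^k`, hence `ζ(k)` is rational.
-/

set_option autoImplicit false

open Matrix

noncomputable section

namespace Pool.Agent.Results.MP_e54452_nt.SubtorsorsAndIrrationality

variable {B S : Type} [Fintype B] [DecidableEq B] [Fintype S]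

/-- `T` is a subtorsor over the rational numbers: it is the set of the invertible zeros of a set of polynomials with
rational coefficients, and closed under `x y⁻¹ z`. -/
structure IsTorsor (T : Set (Matrix B B ℂ)) : Prop where
  algebraic : ∃ I : Set (MvPolynomial (B × B) ℂ), (∀ p ∈ I, ∀ e, ∃ q : ℚ, p.coeff e = q) ∧
    ∀ x : Matrix B B ℂ, x ∈ T ↔ IsUnit x ∧ ∀ p ∈ I, MvPolynomial.eval (fun b => x b.1 b.2) p = 0
  closed : ∀ x ∈ T, ∀ y ∈ T, ∀ z ∈ T, x * y⁻¹ * z ∈ T

/-- The Lie algebra `𝔫` generated by the matrices `N_s`: the smallest subspace which contains them and the commutators of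
its elements. -/
def lieAlgebra (N : S → Matrix B B ℂ) : Submodule ℂ (Matrix B B ℂ) :=
  sInf {U | (∀ s, N s ∈ U) ∧ ∀ x ∈ U, ∀ y ∈ U, x * y - y * x ∈ U}

/-- The span `[𝔫, 𝔫]` of the commutators of elements of the Lie algebra. -/
def commutators (N : S → Matrix B B ℂ) : Submodule ℂ (Matrix B B ℂ) :=
  Submodule.span ℂ {z | ∃ x ∈ lieAlgebra N, ∃ y ∈ lieAlgebra N, z = x * y - y * x}

/-- The exponential `∑ X ^ k / k!` for matrices `X` which raise the degree; the terms with `k > max d` vanish for them. -/
def nilExp (d : B → ℕ) (X : Matrix B B ℂ) : Matrix B B ℂ :=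
  ∑ k ∈ Finset.range (Finset.univ.sup d + 1), ((k.factorial : ℂ))⁻¹ • X ^ k

/-- The matrix `diag(μ^(d b)) exp(n)`. -/
def periodMatrix (d : B → ℕ) (μ : ℂ) (n : Matrix B B ℂ) : Matrix B B ℂ :=
  diagonal (fun b => μ ^ d b) * nilExp d n

/-- The torsor of motivic periods. -/
def motivicTorsor (d : B → ℕ) (N : S → Matrix B B ℂ) : Set (Matrix B B ℂ) :=
  {x | ∃ (μ : ℂ) (n : Matrix B B ℂ), μ ≠ 0 ∧ n ∈ lieAlgebra N ∧ x = periodMatrix d μ n}

/-- The zeta value `ζ(k) = ∑ 1 / n^k`, the sum over `n ≥ 1`. -/
def zeta (k : ℕ) : ℝ := ∑' n : ℕ, 1 / ((n : ℝ) + 1) ^ k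

open Pool.Agent.X306.MT Pool.Agent.X306.MZ in
/-- **Subtorsors and irrationality.** `d` are the degrees of the basis, `N_s` are matrices with rational entries which raise
the degree by `κ_s`, where the `κ_s ≥ 3` are pairwise different odd numbers, and `ell ∈ ∑ ζ(κ_s) N_s + [𝔫, 𝔫]`. Let `T` be a
subtorsor over `ℚ` which contains `periodMatrix d (2πi) ell`. -/
theorem result (d : B → ℕ) (κ : S → ℕ) (hκ : Function.Injective κ) (hodd : ∀ s, Odd (κ s) ∧ 3 ≤ κ s)
    (N : S → Matrix B B ℂ) (hrat : ∀ s b b', ∃ q : ℚ, N s b b' = q) (hdeg : ∀ s b b', d b' ≠ d b + κ s → N s b b' = 0)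
    (ell : Matrix B B ℂ) (hell : ell ∈ lieAlgebra N) (hell1 : ell - ∑ s, (zeta (κ s) : ℂ) • N s ∈ commutators N)
    (T : Set (Matrix B B ℂ)) (hT : IsTorsor T) (hC : periodMatrix d (2 * Real.pi * Complex.I) ell ∈ T) :
    -- 1
    (∃ 𝔪 : Submodule ℂ (Matrix B B ℂ), 𝔪 ≤ lieAlgebra N ∧ (∀ x ∈ 𝔪, ∀ y ∈ 𝔪, x * y - y * x ∈ 𝔪) ∧
      (∀ s, Irrational (zeta (κ s)) → ∃ m ∈ 𝔪, m - N s ∈ commutators N) ∧
      ∀ m ∈ 𝔪, ∀ x ∈ T, nilExp d m * x ∈ T) ∧
    -- 2
    ((∀ s, Irrational (zeta (κ s))) → motivicTorsor d N ⊆ T) := by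
  have hT' : Pool.Agent.TH127.PT.IsSubtorsor Pool.Agent.X306.EM.QQ T := by
    obtain ⟨I, h1, h2⟩ := hT.algebraic
    refine ⟨fun x hx => ((h2 x).1 hx).1, hT.closed, I, fun p hp e => ?_, h2⟩
    obtain ⟨q, hq⟩ := h1 p hp e
    exact Pool.Agent.X306.EM.mem_QQ.2 ⟨q, hq.symm⟩
  have hA : ∀ s, InK Pool.Agent.X306.EM.QQ (N s) := by
    intro s b b'
    obtain ⟨q, hq⟩ := hrat s b b'
    exact Pool.Agent.X306.EM.mem_QQ.2 ⟨q, hq.symm⟩
  have hlie : lieAlgebra N = nn N := lieGen_eq
  have hcom : commutators N = FF N 1 := by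
    rw [← cmm_eq]
    unfold commutators cmm
    rw [hlie]
  have hpos : Pos d N := by
    intro s b b' h
    exact hdeg s b b' (by have := (hodd s).2; omega)
  have hw : (2 * Real.pi * Complex.I : ℂ) ≠ 0 := Complex.two_pi_I_ne_zero
  have hwt := trans_w Pool.Agent.X306.EM.QQ_le
  rw [hlie] at hell
  rw [hcom] at hell1
  have hgen : ∀ s, Irrational (zeta (κ s)) → ∃ m ∈ mmT T N, m - N s ∈ FF N 1 := fun s hs =>
    gen_mem hT' hA hpos hdeg hw hell hC hwt (z := fun s => (zeta (κ s) : ℂ)) hell1
      (fun s => by have := (hodd s).2; omega) s (ind_of_irr hκ (fun s => zeta (κ s)) s (hodd s).1 hs)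
  constructor
  · refine ⟨mmT T N, ?_, fun x hx y hy => mmT_br hx hy, ?_, ?_⟩
    · rw [hlie]
      exact fun x hx => hx.1
    · rw [hcom]
      exact hgen
    · intro m hm x hx
      exact ex_T hT' (nn_pos hpos hm.1) hm.2 hx
  · intro hirr
    rintro _ ⟨μ, n, hμ, hn, rfl⟩
    rw [hlie] at hn
    exact torsor_full hT' hA hpos hdeg hw hell hC hwt
      (mm_full hT' hA hpos hdeg hw hell hC fun s => hgen s (hirr s)) hμ hn

end Pool.Agent.Results.MP_e54452_nt.SubtorsorsAndIrrationality
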