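import Pool.Agent.Results.MP_e54452_nt.MotivicCount
import Pool.Agent.X174.WinDim

/-!
# MP_e54452_nt: the period conjecture and the relations with one large argument, for ALL arguments in windows

Let `G` be a `ℚ`-algebra `H` without zero divisors with elements `mot(k)` for the admissible indices `k`, `mot() = 1`,
that have the stuffle product, and with a ring homomorphism `per : H → ℂ` that maps `mot(k)` to `ζ(k)`; for example the
motivic periods with the motivic multiple zeta values. Let `A_m` be the number of admissible indices of weight at most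
`m`. Fix `W` and consider the indices of weight at most `s + W` with an entry at least `s`.

For a property `P C s` the statement `InWindows P` is: for every sequence `v ≥ 1` of exponent of convergence at most `τ` (for
`v_i = (i + 1) ^ a` this is `1 / a`, for `v_i = b ^ i` it is `0`) and every `ρ < 1` there is a set `E ⊂ ℝ` of Hausdorff
dimension at most `τ / (1 - ρ)` such that for each `α > 0` outside `E` and each `C > 1`, for all but finitely many `i`,
`P C s` holds for ALL `s` with `|s - α v_i| ≤ v_i ^ ρ`.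

Theorem.
(1) For all `W`, for all `s` in windows, the relations in `H` with integer coefficients of absolute value at most `C ^ s`
between the `mot(k)` for these `k` span a space of dimension `∑_{j ≤ W} 2 ^ j (A_{W - j} - h_{W - j})`, where `h_m` is the
dimension of the span of the `mot(k)` of weight at most `m`, and the relations between the numbers `ζ(k)` span a space that
contains it, of dimension `∑_{j ≤ W} 2 ^ j (A_{W - j} - z_{W - j})`, where `z_m = dim(Z_0 + ⋯ + Z_m)`.
(2) `per` is injective on the span of the `mot(k)` of weight at most `W` if and only if for all `s` in windows the two spaces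
are equal. (3) `per` is injective on the subalgebra generated by the `mot(k)` if and only if this holds for all `W`.
(4) For `W = 3` this holds, if `mot(2, 1) = mot(3)`.

The number of exceptions in `[N, κ N]` is from the result `MotivicCount` of helper90.
-/

set_option autoImplicit false

namespace Pool.Agent.Results.MP_e54452_nt.WeightsInWindows

open MotivicCount (mzv Admissible MotivicValues upTo numUpTo relationSpace AlmostAll)

/-- the exponent of convergence of the sequence `v` is at most `τ` -/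
def ExpLe (v : ℕ → ℝ) (τ : ℝ) : Prop := ∀ t : ℝ, τ < t → Summable (fun n : ℕ => (v n) ^ (-t))

/-- for all sequences `v ≥ 1` of exponent of convergence at most `τ` and all `ρ < 1` there is a set `E ⊂ ℝ` of Hausdorff
dimension at most `τ / (1 - ρ)` such that for all `α > 0` outside `E` and all `C > 1`, for all but finitely many `i`,
`P C s` holds for ALL `s` with `|s - α v_i| ≤ v_i ^ ρ` -/
def InWindows (P : ℝ → ℕ → Prop) : Prop :=
  ∀ (v : ℕ → ℝ) (τ ρ : ℝ), (∀ i, 1 ≤ v i) → 0 ≤ τ → ExpLe v τ → ρ < 1 →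
    ∃ E : Set ℝ, dimH E ≤ ENNReal.ofReal (τ / (1 - ρ)) ∧ ∀ α : ℝ, 0 < α → α ∉ E → ∀ C : ℝ, 1 < C →
      ∃ i₀ : ℕ, ∀ i : ℕ, i₀ ≤ i → ∀ s : ℕ, |(s : ℝ) - α * v i| ≤ (v i) ^ ρ → P C s

theorem entries_pos : ∀ w : List ℕ, Admissible w → ∀ t ∈ w, 1 ≤ t
  | [], _, t, ht => absurd ht List.not_mem_nil
  | s :: l, h, t, ht => by
    rcases List.mem_cons.1 ht with rfl | ht
    · exact le_trans (by norm_num) h.1
    · exact h.2 t ht

theorem supp {A : Type} [CommRing A] [Algebra ℚ A] (Z : List ℕ → A) (W s : ℕ) (B : ℝ) :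
    relationSpace Z W s B ≤ Finsupp.supported ℚ ℚ {w : List ℕ | (∀ t ∈ w, 1 ≤ t) ∧ w.sum ≤ s + W} := by
  refine Submodule.span_le.2 ?_
  rintro c ⟨h1, -, -⟩
  refine (Finsupp.mem_supported ℚ c).2 fun w hw => ?_
  obtain ⟨h4, h5, -⟩ := h1 w hw
  exact ⟨entries_pos w h4, h5⟩

theorem findim {A : Type} [CommRing A] [Algebra ℚ A] (Z : List ℕ → A) (W s : ℕ) (B : ℝ) :
    FiniteDimensional ℚ (relationSpace Z W s B) := by
  have hfin : Finite {w : List ℕ | (∀ t ∈ w, 1 ≤ t) ∧ w.sum ≤ s + W} := Pool.Agent.X174.finite_lists (s + W)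
  have h1 : Module.Finite ℚ (Finsupp.supported ℚ ℚ {w : List ℕ | (∀ t ∈ w, 1 ≤ t) ∧ w.sum ≤ s + W}) :=
    Module.Finite.equiv (Finsupp.supportedEquivFinsupp (M := ℚ) (R := ℚ) _).symm
  exact Submodule.finiteDimensional_of_le (supp Z W s B)

theorem mono {A : Type} [CommRing A] [Algebra ℚ A] (Z : List ℕ → A) (W s : ℕ) {H H' : ℝ} (hH : H ≤ H') :
    Module.finrank ℚ (relationSpace Z W s H) ≤ Module.finrank ℚ (relationSpace Z W s H') := by
  refine Pool.Agent.X174.finrank_mono_supported (Pool.Agent.X174.finite_lists (s + W)) ?_ (supp Z W s H')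
  refine Submodule.span_mono ?_
  rintro c ⟨h1, h2, h3⟩
  refine ⟨h1, fun w => ?_, h3⟩
  obtain ⟨z, hz1, hz2⟩ := h2 w
  exact ⟨z, hz1, hz2.trans hH⟩

/-- relations in `H` give relations between the numbers `ζ(k)` -/
theorem le_space (G : MotivicValues) (W s : ℕ) (B : ℝ) :
    relationSpace G.mot W s B ≤ relationSpace mzv W s B := by
  refine Submodule.span_mono ?_
  rintro c ⟨h1, h2, h3⟩
  refine ⟨h1, h2, ?_⟩
  have h4 := congrArg G.per h3
  rw [map_zero, Finsupp.linearCombination_apply, Finsupp.sum, map_sum] at h4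
  rw [Finsupp.linearCombination_apply, Finsupp.sum]
  apply Complex.ofReal_injective
  rw [Complex.ofReal_zero, ← h4, Complex.ofReal_sum]
  refine Finset.sum_congr rfl fun w hw => ?_
  rw [map_rat_smul, G.per_mot w (h1 w hw).1, Rat.smul_def, Rat.smul_def]
  push_cast
  rfl

/-- the statement (1) for one `s` -/
def Good (G : MotivicValues) (W : ℕ) (C : ℝ) (s : ℕ) : Prop :=
  relationSpace G.mot W s (C ^ s) ≤ relationSpace mzv W s (C ^ s) ∧
      Module.finrank ℚ (relationSpace G.mot W s (C ^ s)) +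
        ∑ j ∈ Finset.range (W + 1), 2 ^ j * Module.finrank ℚ (upTo G.mot (W - j)) =
          ∑ j ∈ Finset.range (W + 1), 2 ^ j * numUpTo (W - j) ∧
      Module.finrank ℚ (relationSpace mzv W s (C ^ s)) +
        ∑ j ∈ Finset.range (W + 1), 2 ^ j * Module.finrank ℚ (upTo mzv (W - j)) =
          ∑ j ∈ Finset.range (W + 1), 2 ^ j * numUpTo (W - j)

/-- the two spaces are equal -/
def Same (G : MotivicValues) (W : ℕ) (C : ℝ) (s : ℕ) : Prop :=
  relationSpace G.mot W s (C ^ s) = relationSpace mzv W s (C ^ s)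

theorem good_conv (G : MotivicValues) (W : ℕ) (c₁ c c₂ : ℝ) (s : ℕ) (h1 : 1 < c₁) (h2 : c₁ ≤ c) (h3 : c ≤ c₂)
    (h4 : Good G W c₁ s) (h5 : Good G W c₂ s) : Good G W c s := by
  obtain ⟨-, h6, h7⟩ := h4
  obtain ⟨-, h8, h9⟩ := h5
  have e1 := mono G.mot W s (pow_le_pow_left₀ (by linarith) h2 s : c₁ ^ s ≤ c ^ s)
  have e2 := mono G.mot W s (pow_le_pow_left₀ (by linarith) h3 s : c ^ s ≤ c₂ ^ s)
  have e3 := mono mzv W s (pow_le_pow_left₀ (by linarith) h2 s : c₁ ^ s ≤ c ^ s)
  have e4 := mono mzv W s (pow_le_pow_left₀ (by linarith) h3 s : c ^ s ≤ c₂ ^ s)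
  exact ⟨le_space G W s _, by omega, by omega⟩

theorem same_conv (G : MotivicValues) (W : ℕ) (c₁ c c₂ : ℝ) (s : ℕ) (h1 : 1 < c₁) (h2 : c₁ ≤ c) (h3 : c ≤ c₂)
    (h4 : Same G W c₁ s ∧ Good G W c₁ s) (h5 : Same G W c₂ s ∧ Good G W c₂ s) : Same G W c s ∧ Good G W c s := by
  have h6 := good_conv G W c₁ c c₂ s h1 h2 h3 h4.2 h5.2
  refine ⟨?_, h6⟩
  have := findim mzv W s (c ^ s)
  obtain ⟨-, e1, e2⟩ := h4.2
  obtain ⟨e0, e3, e4⟩ := h6
  have e5 : Module.finrank ℚ (relationSpace G.mot W s (c₁ ^ s)) = Module.finrank ℚ (relationSpace mzv W s (c₁ ^ s)) := by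
    have := h4.1
    unfold Same at this
    rw [this]
  exact Submodule.eq_of_le_of_finrank_eq e0 (by omega)

/-- both properties for almost all `s` -/
theorem almost_and {P Q : ℝ → ℕ → Prop} (hP : AlmostAll P) (hQ : AlmostAll Q) : AlmostAll fun C s => P C s ∧ Q C s := by
  intro κ
  obtain ⟨K, hK⟩ := hP κ
  obtain ⟨L, hL⟩ := hQ κ
  refine ⟨K + L, fun C hC => ?_⟩
  obtain ⟨N0, hN0⟩ := hK C hC
  obtain ⟨N1, hN1⟩ := hL C hC
  refine ⟨max N0 N1, fun N hN => ?_⟩
  have h1 := hN0 N ((le_max_left _ _).trans hN)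
  have h2 := hN1 N ((le_max_right _ _).trans hN)
  have h3 : {s : ℕ | (N ≤ s ∧ s ≤ κ * N) ∧ ¬ (P C s ∧ Q C s)} ⊆
      {s : ℕ | (N ≤ s ∧ s ≤ κ * N) ∧ ¬ P C s} ∪ {s : ℕ | (N ≤ s ∧ s ≤ κ * N) ∧ ¬ Q C s} := by
    rintro s ⟨hs, h4⟩
    by_cases h5 : P C s
    · exact Or.inr ⟨hs, fun h6 => h4 ⟨h5, h6⟩⟩
    · exact Or.inl ⟨hs, h5⟩
  have hfin : ({s : ℕ | (N ≤ s ∧ s ≤ κ * N) ∧ ¬ P C s} ∪ {s : ℕ | (N ≤ s ∧ s ≤ κ * N) ∧ ¬ Q C s}).Finite := by
    refine (Set.finite_Iic (κ * N)).subset ?_
    rintro k (hk | hk)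
    · exact hk.1.2
    · exact hk.1.2
  exact (Set.ncard_le_ncard h3 hfin).trans ((Set.ncard_union_le _ _).trans (add_le_add h1 h2))

theorem almost_mono {P Q : ℝ → ℕ → Prop} (hPQ : ∀ C s, P C s → Q C s) (hP : AlmostAll P) : AlmostAll Q := by
  intro κ
  obtain ⟨K, hK⟩ := hP κ
  refine ⟨K, fun C hC => ?_⟩
  obtain ⟨N0, hN0⟩ := hK C hC
  refine ⟨N0, fun N hN => ?_⟩
  refine (Set.ncard_le_ncard ?_ ?_).trans (hN0 N hN)
  · rintro s ⟨hs, h4⟩
    exact ⟨hs, fun h5 => h4 (hPQ C s h5)⟩
  · exact (Set.finite_Iic (κ * N)).subset fun k hk => hk.1.2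

theorem good_almost (G : MotivicValues) (W : ℕ) : AlmostAll (Good G W) := (MotivicCount.result G).1 W

theorem good_windows (G : MotivicValues) (W : ℕ) : InWindows (Good G W) :=
  fun _ _ _ hv hτ hE hρ => Pool.Agent.X174.winRank (Good G W) (good_conv G W) (good_almost G W) hv hτ hE hρ

/-- one `s` with both properties -/
theorem pick {P Q : ℝ → ℕ → Prop} (hP : InWindows P) (hQ : InWindows Q) : ∃ s : ℕ, P 2 s ∧ Q 2 s := by
  have hv : ∀ i : ℕ, (1 : ℝ) ≤ (2 : ℝ) ^ i := fun i => one_le_pow₀ (by norm_num)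
  obtain ⟨E, hE, h1⟩ := hP (fun i => (2 : ℝ) ^ i) 0 0 hv le_rfl (Pool.Agent.Y854.GM.expLe_geom 2 (by norm_num)) one_pos
  obtain ⟨E', hE', h1'⟩ := hQ (fun i => (2 : ℝ) ^ i) 0 0 hv le_rfl (Pool.Agent.Y854.GM.expLe_geom 2 (by norm_num)) one_pos
  obtain ⟨α, hα0, hα⟩ := Pool.Agent.X174.exists_pos_notMem_real (E := E ∪ E') (by
    rw [dimH_union, max_le_iff]
    constructor
    · simpa using hE
    · simpa using hE')
  obtain ⟨i₀, hi₀⟩ := h1 α hα0 (fun hm => hα (Or.inl hm)) 2 one_lt_two
  obtain ⟨i₁, hi₁⟩ := h1' α hα0 (fun hm => hα (Or.inr hm)) 2 one_lt_two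
  set i := max i₀ i₁
  have h2 : |((⌊α * (2 : ℝ) ^ i⌋₊ : ℕ) : ℝ) - α * (2 : ℝ) ^ i| ≤ ((2 : ℝ) ^ i) ^ (0 : ℝ) := by
    rw [Real.rpow_zero, abs_le]
    constructor
    · linarith [Nat.lt_floor_add_one (α * (2 : ℝ) ^ i)]
    · linarith [Nat.floor_le (show 0 ≤ α * (2 : ℝ) ^ i by positivity)]
  exact ⟨_, hi₀ i (le_max_left _ _) _ h2, hi₁ i (le_max_right _ _) _ h2⟩

theorem same_iff (G : MotivicValues) (W : ℕ) : AlmostAll (Same G W) ↔ InWindows (Same G W) := by
  constructor
  · intro h v τ ρ hv hτ hE hρ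
    obtain ⟨E, h1, h2⟩ := Pool.Agent.X174.winRank (fun C s => Same G W C s ∧ Good G W C s) (same_conv G W)
      (almost_and h (good_almost G W)) hv hτ hE hρ
    refine ⟨E, h1, fun α hα0 hα C hC => ?_⟩
    obtain ⟨i₀, hi₀⟩ := h2 α hα0 hα C hC
    exact ⟨i₀, fun i hi s hs => (hi₀ i hi s hs).1⟩
  · intro h
    obtain ⟨s, h1, -, h2, h3⟩ := pick h (good_windows G W)
    have e5 : Module.finrank ℚ (relationSpace G.mot W s ((2 : ℝ) ^ s)) =
        Module.finrank ℚ (relationSpace mzv W s ((2 : ℝ) ^ s)) := by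
      have := h1
      unfold Same at this
      rw [this]
    refine almost_mono (P := Good G W) (fun C s' hs' => ?_) (good_almost G W)
    obtain ⟨h4, h5, h6⟩ := hs'
    have := findim mzv W s' (C ^ s')
    exact Submodule.eq_of_le_of_finrank_eq h4 (by omega)

/-- **The period conjecture and the relations with one large argument, for all arguments in windows.** Let `G` be a
`ℚ`-algebra without zero divisors with elements `mot(k)` that have the stuffle product and a period map, for example the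
motivic multiple zeta values. (1) For all `W` and for ALL `s` in windows around `α v_i`: the relations of height at most
`C ^ s` between the `mot(k)` of weight at most `s + W` with an entry at least `s` span a space of dimension
`∑_{j ≤ W} 2 ^ j (A_{W - j} - dim upTo mot (W - j))`, and the space spanned by the relations between the numbers `ζ(k)`
contains it and has the dimension `∑_{j ≤ W} 2 ^ j (A_{W - j} - dim upTo ζ (W - j))`. (2) For all `W`: the period map is
injective on the elements of weight at most `W` if and only if the two spaces are equal for ALL `s` in windows. (3) The period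
map is injective on the algebra generated by the `mot(k)` if and only if this holds for all `W`. (4) If
`mot(2, 1) = mot(3)`, this holds for `W = 3`. The sequences `v_i = (i + 1) ^ a` and `v_i = b ^ i` have exponent of
convergence at most `1 / a` and `0`. -/
theorem result :
    (∀ G : MotivicValues,
      (∀ W : ℕ, InWindows fun C s =>
        relationSpace G.mot W s (C ^ s) ≤ relationSpace mzv W s (C ^ s) ∧
        Module.finrank ℚ (relationSpace G.mot W s (C ^ s)) +
          ∑ j ∈ Finset.range (W + 1), 2 ^ j * Module.finrank ℚ (upTo G.mot (W - j)) =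
            ∑ j ∈ Finset.range (W + 1), 2 ^ j * numUpTo (W - j) ∧
        Module.finrank ℚ (relationSpace mzv W s (C ^ s)) +
          ∑ j ∈ Finset.range (W + 1), 2 ^ j * Module.finrank ℚ (upTo mzv (W - j)) =
            ∑ j ∈ Finset.range (W + 1), 2 ^ j * numUpTo (W - j)) ∧
      (∀ W : ℕ, (∀ x ∈ upTo G.mot W, G.per x = 0 → x = 0) ↔
        InWindows fun C s => relationSpace G.mot W s (C ^ s) = relationSpace mzv W s (C ^ s)) ∧
      ((∀ x ∈ Algebra.adjoin ℚ (G.mot '' {p | Admissible p}), G.per x = 0 → x = 0) ↔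
        ∀ W : ℕ, InWindows fun C s =>
          relationSpace G.mot W s (C ^ s) = relationSpace mzv W s (C ^ s)) ∧
      (G.mot [2, 1] = G.mot [3] → InWindows fun C s =>
        relationSpace G.mot 3 s (C ^ s) = relationSpace mzv 3 s (C ^ s))) ∧
    (∀ a : ℝ, 0 < a → ExpLe (fun n : ℕ => ((n : ℝ) + 1) ^ a) (1 / a)) ∧
    (∀ b : ℝ, 1 < b → ExpLe (fun n : ℕ => b ^ n) 0) := by
  refine ⟨fun G => ?_, fun κ hκ => Pool.Agent.Y854.GM.expLe_pow κ hκ, fun b hb => Pool.Agent.Y854.GM.expLe_geom b hb⟩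
  obtain ⟨-, h2, h3, h4⟩ := MotivicCount.result G
  exact ⟨fun W => good_windows G W, fun W => (h2 W).trans (same_iff G W),
    h3.trans (forall_congr' fun W => same_iff G W), fun h => (same_iff G 3).1 (h4 h)⟩

end Pool.Agent.Results.MP_e54452_nt.WeightsInWindows
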